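import Pool.Agent.Q202.NH.Defs

/-! Few changes in every pattern: solutions of the changed colouring compute solutions. -/

set_option autoImplicit false

namespace Pool.Agent.Q202.NH

open Pool.Agent.Helper446.Defs Pool.Agent.Helper446.Oracle Filter

/-- For each set `R` of `r` shifts and all large `y`, one of the `y + u` is unchanged. -/
def Few {k : ℕ} (e c : ℕ → Fin k) (r : ℕ) : Prop :=
  ∀ R : Finset ℕ, R.card = r → ∀ᶠ y in atTop, ∃ u ∈ R, e (y + u) = c (y + u)

/-- In every finite set of shifts, fewer than `r` positions are changed, for large `y`. -/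
theorem few_changes {k : ℕ} {e c : ℕ → Fin k} {r : ℕ} (h : Few e c r) (U : Finset ℕ) :
    ∀ᶠ y in atTop, (U.filter fun u => e (y + u) ≠ c (y + u)).card < r := by
  have h1 : ∀ᶠ y in atTop, ∀ R ∈ U.powersetCard r, ∃ u ∈ R, e (y + u) = c (y + u) := by
    rw [eventually_all_finset]
    intro R hR
    exact h R (Finset.mem_powersetCard.1 hR).2
  filter_upwards [h1] with y hy
  by_contra hc
  push Not at hc
  obtain ⟨R, hR1, hR2⟩ := Finset.exists_subset_card_eq hc
  obtain ⟨u, hu, hu'⟩ := hy R (Finset.mem_powersetCard.2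
    ⟨hR1.trans (Finset.filter_subset _ _), hR2⟩)
  exact (Finset.mem_filter.1 (hR1 hu)).2 hu'

theorem mem_sums_single {X : Set ℕ} {x : ℕ} (h : x ∈ X) : x ∈ Sums X :=
  ⟨{x}, Finset.singleton_nonempty x, by simpa using h, by simp⟩

/-- A sum, plus two larger elements. -/
theorem add_mem_sums {X : Set ℕ} {s x y M : ℕ} (hs : s ∈ Sums X) (hM : s ≤ M) (hx : x ∈ X)
    (hMx : M < x) (hy : y ∈ X) (hxy : x < y) : s + (y + x) ∈ Sums X := by
  obtain ⟨F, h1, h2, h3⟩ := hs
  have hle : ∀ z ∈ F, z ≤ s := fun z hz => by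
    rw [← h3]
    exact Finset.single_le_sum (f := fun x : ℕ => x) (fun _ _ => Nat.zero_le _) hz
  have hxF : x ∉ F := fun h => by have := hle x h; omega
  have hyF : y ∉ insert x F := fun h => by
    rcases Finset.mem_insert.1 h with h | h
    · omega
    · have := hle y h; omega
  refine ⟨insert y (insert x F), Finset.insert_nonempty _ _, ?_, ?_⟩
  · rw [Finset.coe_insert, Finset.coe_insert]
    exact Set.insert_subset hy (Set.insert_subset hx h2)
  · rw [Finset.sum_insert hyF, Finset.sum_insert hxF, h3]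
    omega

theorem pair_mem_sums {X : Set ℕ} {x y : ℕ} (hx : x ∈ X) (hy : y ∈ X) (hxy : x < y) :
    y + x ∈ Sums X := by
  have hn : y ∉ ({x} : Finset ℕ) := by
    rw [Finset.mem_singleton]
    omega
  refine ⟨insert y {x}, Finset.insert_nonempty _ _, ?_, ?_⟩
  · rw [Finset.coe_insert]
    exact Set.insert_subset hy (by simpa using hx)
  · rw [Finset.sum_insert hn, Finset.sum_singleton]

theorem color_of_sums {k : ℕ} {e : ℕ → Fin k} {i : Fin k} {X : Set ℕ} (h : Solution e i X)
    {n : ℕ} (hn : n ∈ Sums X) : e n = i := by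
  obtain ⟨F, h1, h2, h3⟩ := hn
  rw [← h3]
  exact h.2.2 F h2 h1

/-- The extension step. -/
theorem extend {k : ℕ} {e c : ℕ → Fin k} {r : ℕ} (hf : Few e c r) {i : Fin k} {X : Set ℕ}
    (hX : Solution e i X) (S : Finset ℕ) (hS : ∀ s ∈ S, s ∈ Sums X) (B : ℕ) :
    ∃ y, B < y ∧ (y ∈ Sums X ∧ c y = i) ∧ ∀ s ∈ S, s + y ∈ Sums X ∧ c (s + y) = i := by
  classical
  have hr : 0 < r := by
    rcases Nat.eq_zero_or_pos r with h0 | h0
    · subst h0
      obtain ⟨y, hy⟩ := (hf ∅ rfl).exists
      obtain ⟨u, hu, -⟩ := hy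
      exact absurd hu (Finset.notMem_empty u)
    · exact h0
  -- a bound for the sums so far
  obtain ⟨M, hM⟩ : ∃ M, ∀ s ∈ S, s ≤ M := ⟨S.sup id, fun s hs => Finset.le_sup (f := id) hs⟩
  -- many elements beyond `M`
  have hinf : (X \ Set.Iic M).Infinite := hX.1.diff (Set.finite_Iic M)
  obtain ⟨T, hT1, hT2⟩ := hinf.exists_subset_card_eq (r * (insert 0 S).card)
  let U : Finset ℕ := (T ×ˢ insert 0 S).image fun p => p.1 + p.2
  have hev := few_changes hf U
  obtain ⟨M', hM'⟩ : ∃ M', ∀ x ∈ T, x ≤ M' := ⟨T.sup id, fun s hs => Finset.le_sup (f := id) hs⟩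
  have hfr : ∃ᶠ y in atTop, y ∈ X := Nat.frequently_atTop_iff_infinite.2 hX.1
  obtain ⟨y, hyX, hy1, hy2⟩ := (hfr.and_eventually (hev.and (eventually_gt_atTop (max M' B)))).exists
  have hy3 : M' < y := lt_of_le_of_lt (le_max_left _ _) hy2
  have hy4 : B < y := lt_of_le_of_lt (le_max_right _ _) hy2
  -- some `x` is good
  have hgood : ∃ x ∈ T, ∀ s ∈ insert 0 S, e (y + (x + s)) = c (y + (x + s)) := by
    by_contra hcon
    push Not at hcon
    choose! f hf1 hf2 using hcon
    have hcard : T.card ≤ ((U.filter fun u => e (y + u) ≠ c (y + u)) ×ˢ insert 0 S).card := by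
      refine Finset.card_le_card_of_injOn (fun x => (x + f x, f x)) ?_ ?_
      · intro x hx
        have hx' : x ∈ T := hx
        refine Finset.mem_coe.2 (Finset.mem_product.2 ⟨Finset.mem_filter.2 ⟨?_, hf2 x hx'⟩,
          hf1 x hx'⟩)
        exact Finset.mem_image.2 ⟨(x, f x), Finset.mem_product.2 ⟨hx', hf1 x hx'⟩, rfl⟩
      · intro x _ x' _ h
        have h1 : x + f x = x' + f x' := congrArg Prod.fst h
        have h2 : f x = f x' := congrArg Prod.snd h
        omega
    rw [Finset.card_product, hT2] at hcard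
    have h5 : 0 < (insert 0 S).card := Finset.card_pos.2 (Finset.insert_nonempty _ _)
    have h6 := Nat.mul_lt_mul_of_pos_right hy1 h5
    omega
  obtain ⟨x, hxT, hx⟩ := hgood
  have hxX : x ∈ X := (hT1 hxT).1
  have hxM : M < x := by
    have := (hT1 hxT).2
    rw [Set.mem_Iic] at this
    omega
  have hxy : x < y := lt_of_le_of_lt (hM' x hxT) hy3
  refine ⟨y + x, by omega, ⟨pair_mem_sums hxX hyX hxy, ?_⟩, fun s hs => ?_⟩
  · have h1 := hx 0 (Finset.mem_insert_self _ _)
    rw [add_zero] at h1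
    rw [← h1]
    exact color_of_sums hX (pair_mem_sums hxX hyX hxy)
  · have h2 := add_mem_sums (hS s hs) (hM s hs) hxX hxM hyX hxy
    refine ⟨h2, ?_⟩
    have h1 := hx s (Finset.mem_insert_of_mem hs)
    have h3 : y + (x + s) = s + (y + x) := by omega
    rw [h3] at h1
    rw [← h1]
    exact color_of_sums hX h2

/-- Every solution of the changed colouring computes a solution of the original one. -/
theorem descend {k : ℕ} {e c : ℕ → Fin k} {r : ℕ} (hf : Few e c r) {i : Fin k} {X : Set ℕ}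
    (hX : Solution e i X) : ∃ Y : Set ℕ, Solution c i Y ∧ Sums Y ⊆ Sums X ∧
      TuringReducible (chi Y) (chi (join X (graph c))) := by
  obtain ⟨Y, h1, h2, h3⟩ := Pool.Agent.Y579.ST.t_GREEDY 2 (both c i X) (both c i X) 0
    (join X (graph c)) (re_both c i X) (re_both c i X) (fun S N hS => by
      obtain ⟨y, y1, y2, y3⟩ := extend hf hX S (fun s hs => (both_eq_zero.1 (hS s hs).1).1) N
      exact ⟨y, y1, both_eq_zero.2 y2, both_eq_zero.2 y2,
        fun s hs => ⟨both_eq_zero.2 (y3 s hs), both_eq_zero.2 (y3 s hs)⟩⟩)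
  refine ⟨Y, ⟨h1.1, h1.2.1, fun F hF hne => (both_eq_zero.1 (h1.2.2 F hF hne)).2⟩, ?_,
    turingReducible_iff.2 ⟨h2, h3⟩⟩
  rintro n ⟨F, f1, f2, rfl⟩
  exact (both_eq_zero.1 (h1.2.2 F f2 f1)).1

end Pool.Agent.Q202.NH
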