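import Pool.Agent.Y579.ST.GREEDY
import Pool.Agent.TH747.HS.FS

/-! Random colourings and Hindman's theorem: definitions and the deterministic part. -/

set_option autoImplicit false

namespace Pool.Agent.Q202.NH

open Pool.Agent.Helper446.Defs Pool.Agent.Helper446.Oracle Pool.Agent.Y579.ST
open Pool.Agent.Helper446 (RE.eq)

/-- `X` is a solution of colour `i` of the instance `c` of Hindman's theorem: an infinite set of
positive integers, all of whose finite sums of distinct elements have the colour `i`. -/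
def Solution {k : ℕ} (c : ℕ → Fin k) (i : Fin k) (X : Set ℕ) : Prop :=
  X.Infinite ∧ 0 ∉ X ∧ ∀ F : Finset ℕ, (F : Set ℕ) ⊆ X → F.Nonempty → c (∑ n ∈ F, n) = i

/-- The set of all sums of nonempty finite sets of (distinct) elements of `X`. -/
def Sums (X : Set ℕ) : Set ℕ :=
  {n | ∃ F : Finset ℕ, F.Nonempty ∧ (F : Set ℕ) ⊆ X ∧ ∑ x ∈ F, x = n}

/-- The graph of `c`, as a set of codes of pairs of natural numbers. -/
def graph {k : ℕ} (c : ℕ → Fin k) : Set ℕ := {n | (c n.unpair.1 : ℕ) = n.unpair.2}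

/-- The join of two sets: `A` on the even numbers, `B` on the odd numbers. -/
def join (A B : Set ℕ) : Set ℕ := {n | (∃ m ∈ A, n = 2 * m) ∨ ∃ m ∈ B, n = 2 * m + 1}

theorem reduces_graph {k : ℕ} (c : ℕ → Fin k) :
    REIn (graph c) fun p : ℕ × Fin k => c p.1 = p.2 := by
  have h := REIn.mem (A := graph c) (f := fun p : ℕ × Fin k => Nat.pair p.1 (p.2 : ℕ))
    (Computable₂.comp Primrec₂.natPair.to_comp Computable.fst
      (Primrec.fin_val.to_comp.comp Computable.snd))
  refine h.of_eq fun p => ?_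
  show (c (Nat.pair p.1 (p.2 : ℕ)).unpair.1 : ℕ) = (Nat.pair p.1 (p.2 : ℕ)).unpair.2 ↔ _
  rw [Nat.unpair_pair]
  exact Fin.ext_iff.symm

/-- The greedy solution of a colouring with rich enough patterns. -/
theorem greedy {k : ℕ} (c : ℕ → Fin k) (i : Fin k)
    (h : ∀ (S : Finset ℕ) (N : ℕ), ∃ y, N < y ∧ c y = i ∧ ∀ s ∈ S, c (s + y) = i) :
    ∃ X : Set ℕ, Solution c i X ∧ TuringReducible (chi X) (chi (graph c)) := by
  obtain ⟨X, h1, h2, h3⟩ := t_GREEDY k c c i (graph c) (reduces_graph c) (reduces_graph c)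
    (fun S N _ => by
      obtain ⟨y, y1, y2, y3⟩ := h S N
      exact ⟨y, y1, y2, y2, fun s hs => ⟨y3 s hs, y3 s hs⟩⟩)
  exact ⟨X, h1, turingReducible_iff.2 ⟨h2, h3⟩⟩

theorem mem_join_left {A B : Set ℕ} {n : ℕ} : 2 * n ∈ join A B ↔ n ∈ A := by
  constructor
  · rintro (⟨m, hm, h⟩ | ⟨m, hm, h⟩)
    · have : n = m := by omega
      rw [this]; exact hm
    · omega
  · intro h
    exact Or.inl ⟨n, h, rfl⟩

theorem mem_join_right {A B : Set ℕ} {n : ℕ} : 2 * n + 1 ∈ join A B ↔ n ∈ B := by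
  constructor
  · rintro (⟨m, hm, h⟩ | ⟨m, hm, h⟩)
    · omega
    · have : n = m := by omega
      rw [this]; exact hm
  · intro h
    exact Or.inr ⟨n, h, rfl⟩

theorem comp_two : Computable fun n : ℕ => 2 * n :=
  (Primrec.nat_mul.comp (Primrec.const 2) Primrec.id).to_comp

theorem comp_two_succ : Computable fun n : ℕ => 2 * n + 1 :=
  (Primrec.succ.comp (Primrec.nat_mul.comp (Primrec.const 2) Primrec.id)).to_comp

theorem left_le_join (A B : Set ℕ) : TuringReducible (chi A) (chi (join A B)) := by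
  refine turingReducible_iff.2 ⟨?_, ?_⟩
  · exact (REIn.mem (A := join A B) comp_two).of_eq fun n => mem_join_left
  · exact (REIn.not_mem (A := join A B) comp_two).of_eq fun n => not_congr mem_join_left

theorem right_le_join (A B : Set ℕ) : TuringReducible (chi B) (chi (join A B)) := by
  refine turingReducible_iff.2 ⟨?_, ?_⟩
  · exact (REIn.mem (A := join A B) comp_two_succ).of_eq fun n => mem_join_right
  · exact (REIn.not_mem (A := join A B) comp_two_succ).of_eq fun n => not_congr mem_join_right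

/-- The graph of `c` below the join. -/
theorem re_col {k : ℕ} (c : ℕ → Fin k) (X : Set ℕ) :
    REIn (join X (graph c)) fun p : ℕ × Fin k => c p.1 = p.2 := by
  have h := REIn.mem (A := join X (graph c))
    (f := fun p : ℕ × Fin k => 2 * Nat.pair p.1 (p.2 : ℕ) + 1)
    (comp_two_succ.comp (Computable₂.comp Primrec₂.natPair.to_comp Computable.fst
      (Primrec.fin_val.to_comp.comp Computable.snd)))
  refine h.of_eq fun p => ?_
  rw [mem_join_right]
  show (c (Nat.pair p.1 (p.2 : ℕ)).unpair.1 : ℕ) = (Nat.pair p.1 (p.2 : ℕ)).unpair.2 ↔ _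
  rw [Nat.unpair_pair]
  exact Fin.ext_iff.symm

theorem sums_le (X : Set ℕ) : TuringReducible (chi (Sums X)) (chi X) :=
  turingReducible_iff.2 ⟨Pool.Agent.TH747.HS.re_FS, Pool.Agent.TH747.HS.re_not_FS⟩

/-- The combined colouring: colour `0` for the elements of `Sums X` of colour `i`. -/
noncomputable def both {k : ℕ} (c : ℕ → Fin k) (i : Fin k) (X : Set ℕ) (n : ℕ) : Fin 2 := by
  classical exact if n ∈ Sums X ∧ c n = i then 0 else 1

theorem both_eq_zero {k : ℕ} {c : ℕ → Fin k} {i : Fin k} {X : Set ℕ} {n : ℕ} :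
    both c i X n = 0 ↔ n ∈ Sums X ∧ c n = i := by
  classical
  unfold both
  split_ifs with h
  · exact ⟨fun _ => h, fun _ => rfl⟩
  · exact ⟨fun h' => absurd h' (by decide), fun h' => absurd h' h⟩

theorem both_eq_one {k : ℕ} {c : ℕ → Fin k} {i : Fin k} {X : Set ℕ} {n : ℕ} :
    both c i X n = 1 ↔ n ∉ Sums X ∨ c n ≠ i := by
  classical
  unfold both
  split_ifs with h
  · exact ⟨fun h' => absurd h' (by decide), fun h' => absurd h (by tauto)⟩
  · exact ⟨fun _ => by tauto, fun _ => rfl⟩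

theorem re_both {k : ℕ} (c : ℕ → Fin k) (i : Fin k) (X : Set ℕ) :
    REIn (join X (graph c)) fun p : ℕ × Fin 2 => both c i X p.1 = p.2 := by
  have h0 := turingReducible_iff.1 ((sums_le X).trans (left_le_join X (graph c)))
  have hc := re_col c X
  have h1 : REIn (join X (graph c)) fun n : ℕ => n ∈ Sums X ∧ c n = i :=
    REIn.and h0.1 (hc.comp (f := fun n : ℕ => (n, i)) (by fun_prop))
  have h2 : REIn (join X (graph c)) fun n : ℕ => n ∉ Sums X ∨ c n ≠ i := by
    refine REIn.or h0.2 ?_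
    have h3 : REIn (join X (graph c)) fun n : ℕ => ∃ j : Fin k, c n = j ∧ j ≠ i := by
      refine REIn.ex (S := fun (n : ℕ) (j : Fin k) => c n = j ∧ j ≠ i) ?_
      exact REIn.and hc (REIn.of_re (Pool.Agent.Helper446.RE.ne (by fun_prop) (by fun_prop)))
    refine h3.of_eq fun n => ⟨?_, fun h => ⟨_, rfl, h⟩⟩
    rintro ⟨j, rfl, h⟩
    exact h
  have h4 : REIn (join X (graph c)) fun p : ℕ × Fin 2 =>
      ((p.1 ∈ Sums X ∧ c p.1 = i) ∧ p.2 = 0) ∨ ((p.1 ∉ Sums X ∨ c p.1 ≠ i) ∧ p.2 = 1) := by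
    refine REIn.or (REIn.and (h1.comp Computable.fst) (REIn.of_re ?_))
      (REIn.and (h2.comp Computable.fst) (REIn.of_re ?_))
    · exact Pool.Agent.Helper446.RE.eq (by fun_prop) (by fun_prop)
    · exact Pool.Agent.Helper446.RE.eq (by fun_prop) (by fun_prop)
  refine h4.of_eq fun p => ?_
  rw [← both_eq_zero, ← both_eq_one]
  constructor
  · rintro (⟨h5, h6⟩ | ⟨h5, h6⟩)
    · rw [h5, h6]
    · rw [h5, h6]
  · intro h5
    have h7 : ∀ q : Fin 2, q = 0 ∨ q = 1 := by decide
    rcases h7 p.2 with h6 | h6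
    · exact Or.inl ⟨h5.trans h6, h6⟩
    · exact Or.inr ⟨h5.trans h6, h6⟩

end Pool.Agent.Q202.NH
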