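import Pool.Agent.Q202.NH.Prob

/-! Computable colourings: the join is not needed. -/

set_option autoImplicit false

namespace Pool.Agent.Q202.NH

open Pool.Agent.Helper446.Defs Pool.Agent.Helper446.Oracle
open Pool.Agent.Helper446 (RE.eq RE.ne)

theorem join_le {k : ℕ} {c : ℕ → Fin k} (hc : Computable c) (X : Set ℕ) :
    TuringReducible (chi (join X (graph c))) (chi X) := by
  have c1 : Computable fun m : ℕ => ((c m.unpair.1 : Fin k) : ℕ) :=
    Primrec.fin_val.to_comp.comp (hc.comp (Computable.fst.comp Primrec.unpair.to_comp))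
  have c2 : Computable fun m : ℕ => m.unpair.2 := Computable.snd.comp Primrec.unpair.to_comp
  have g1 : REIn X fun m : ℕ => m ∈ graph c := REIn.of_re (RE.eq c1 c2)
  have g2 : REIn X fun m : ℕ => m ∉ graph c := REIn.of_re (RE.ne c1 c2)
  have x1 : REIn X fun m : ℕ => m ∈ X := REIn.mem Computable.id
  have x2 : REIn X fun m : ℕ => m ∉ X := REIn.not_mem Computable.id
  refine turingReducible_iff.2 ⟨?_, ?_⟩
  · have h1 : REIn X fun n : ℕ => (∃ m, m ∈ X ∧ n = 2 * m) ∨ ∃ m, m ∈ graph c ∧ n = 2 * m + 1 := by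
      refine REIn.or (REIn.ex (S := fun (n m : ℕ) => m ∈ X ∧ n = 2 * m) ?_)
        (REIn.ex (S := fun (n m : ℕ) => m ∈ graph c ∧ n = 2 * m + 1) ?_)
      · exact REIn.and (x1.comp Computable.snd)
          (REIn.of_re (RE.eq Computable.fst (comp_two.comp Computable.snd)))
      · exact REIn.and (g1.comp Computable.snd)
          (REIn.of_re (RE.eq Computable.fst (comp_two_succ.comp Computable.snd)))
    exact h1
  · have h1 : REIn X fun n : ℕ => (∃ m, m ∉ X ∧ n = 2 * m) ∨ ∃ m, m ∉ graph c ∧ n = 2 * m + 1 := by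
      refine REIn.or (REIn.ex (S := fun (n m : ℕ) => m ∉ X ∧ n = 2 * m) ?_)
        (REIn.ex (S := fun (n m : ℕ) => m ∉ graph c ∧ n = 2 * m + 1) ?_)
      · exact REIn.and (x2.comp Computable.snd)
          (REIn.of_re (RE.eq Computable.fst (comp_two.comp Computable.snd)))
      · exact REIn.and (g2.comp Computable.snd)
          (REIn.of_re (RE.eq Computable.fst (comp_two_succ.comp Computable.snd)))
    refine h1.of_eq fun n => ?_
    constructor
    · rintro (⟨m, hm, rfl⟩ | ⟨m, hm, rfl⟩) h
      · exact hm (mem_join_left.1 h)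
      · exact hm (mem_join_right.1 h)
    · intro h
      rcases Nat.even_or_odd' n with ⟨m, rfl | rfl⟩
      · exact Or.inl ⟨m, fun hm => h (mem_join_left.2 hm), rfl⟩
      · exact Or.inr ⟨m, fun hm => h (mem_join_right.2 hm), rfl⟩

end Pool.Agent.Q202.NH
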