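import Pool.Agent.Q202.NH.Comb

/-! The two Borel-Cantelli arguments. -/

set_option autoImplicit false

namespace Pool.Agent.Q202.NH

open MeasureTheory ProbabilityTheory Filter

/-- `D` is thin of order `r`: for any `r` distinct shifts `u`, the numbers `y` for which all
`y + u` belong to `D` are bounded. -/
def Thin (r : ℕ) (D : Set ℕ) : Prop :=
  ∀ R : Finset ℕ, R.card = r → ∃ B, ∀ y, B ≤ y → ∃ u ∈ R, y + u ∉ D

theorem Thin.few {k r : ℕ} {D : Set ℕ} (h : Thin r D) {e c : ℕ → Fin k}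
    (hec : ∀ m, m ∉ D → e m = c m) : Few e c r := by
  intro R hR
  obtain ⟨B, hB⟩ := h R hR
  filter_upwards [eventually_ge_atTop B] with y hy
  obtain ⟨u, hu, hu'⟩ := hB y hy
  exact ⟨u, hu, hec _ hu'⟩

/-- Sums along blocks. -/
theorem sum_div (h : ℕ → ℝ) (d n : ℕ) (hd : 0 < d) :
    ∑ m ∈ Finset.range (n * d), h (m / d) = d * ∑ j ∈ Finset.range n, h j := by
  induction n with
  | zero => simp
  | succ n ih =>
    rw [Nat.succ_mul, Finset.sum_range_add, ih, Finset.sum_range_succ, mul_add]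
    congr 1
    have : ∀ x ∈ Finset.range d, h ((n * d + x) / d) = h n := by
      intro x hx
      rw [Finset.mem_range] at hx
      congr 1
      rw [Nat.add_comm, Nat.add_mul_div_right _ _ hd, Nat.div_eq_of_lt hx]
      omega
    rw [Finset.sum_congr rfl this, Finset.sum_const, Finset.card_range, nsmul_eq_mul]

theorem summable_of_blocks {f : ℕ → ℝ} (hf : Antitone f) (h0 : ∀ m, 0 ≤ f m) {a d : ℕ}
    (hd : 0 < d) (h : Summable fun j => f (a + j * d)) : Summable f := by
  rw [← summable_nat_add_iff a]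
  have h1 : Summable fun m => f (a + m / d * d) := by
    refine summable_of_sum_range_le (c := d * ∑' j, f (a + j * d)) (fun m => h0 _) fun n => ?_
    have h2 := sum_div (fun j => f (a + j * d)) d n hd
    have h3 : ∑ m ∈ Finset.range n, f (a + m / d * d) ≤
        ∑ m ∈ Finset.range (n * d), f (a + m / d * d) := by
      refine Finset.sum_le_sum_of_subset_of_nonneg ?_ fun _ _ _ => h0 _
      exact Finset.range_subset_range.2 (Nat.le_mul_of_pos_right n hd)
    refine h3.trans ?_
    rw [h2]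
    refine mul_le_mul_of_nonneg_left ?_ (Nat.cast_nonneg d)
    exact h.sum_le_tsum _ fun _ _ => h0 _
  refine Summable.of_nonneg_of_le (fun m => h0 _) (fun m => ?_) h1
  refine hf ?_
  have := Nat.div_mul_le_self m d
  omega

variable {Ω : Type} [MeasurableSpace Ω] {μ : Measure Ω} {D : ℕ → Set Ω}

theorem inter (hD : ∀ m, MeasurableSet (D m)) (hi : iIndepSet D μ) (T : Finset ℕ) :
    μ (⋂ m ∈ T, D m) = ∏ m ∈ T, μ (D m) :=
  (iIndepSet_iff_meas_biInter hD).1 hi T

/-- Almost surely the pattern `S` occurs in the random set, beyond `N`. -/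
theorem rich [IsProbabilityMeasure μ] (hD : ∀ m, MeasurableSet (D m)) (hi : iIndepSet D μ)
    {δ : ℕ → ℝ} (hd : Antitone δ) (h0 : ∀ m, 0 ≤ δ m)
    (hs : ∀ r : ℕ, ¬ Summable fun m => δ m ^ r) (hp : ∀ m, δ m ≤ μ.real (D m))
    (S : Finset ℕ) (N : ℕ) :
    ∀ᵐ ω ∂μ, ∃ y, N < y ∧ ω ∈ D y ∧ ∀ s ∈ S, ω ∈ D (s + y) := by
  classical
  let S' : Finset ℕ := insert 0 S
  let d : ℕ := S'.sup id + 1
  have hd0 : 0 < d := Nat.succ_pos _
  have hS' : ∀ s ∈ S', s < d := fun s hs => Nat.lt_succ_of_le (Finset.le_sup (f := id) hs)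
  let y : ℕ → ℕ := fun j => (N + 1) + j * d
  let I : ℕ → Finset ℕ := fun j => S'.image fun s => s + y j
  let E : ℕ → Set Ω := fun j => ⋂ m ∈ I j, D m
  have hE : ∀ j, MeasurableSet (E j) := fun j =>
    Finset.measurableSet_biInter (I j) fun m _ => hD m
  have hdisj : ∀ j j', j ≠ j' → Disjoint (I j) (I j') := by
    have key : ∀ j j', j < j' → Disjoint (I j) (I j') := by
      intro j j' hjj
      rw [Finset.disjoint_left]
      intro m hm1 hm2
      obtain ⟨s, hs1, rfl⟩ := Finset.mem_image.1 hm1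
      obtain ⟨s', hs2, hs3⟩ := Finset.mem_image.1 hm2
      have h1 := hS' s hs1
      have h2 : (j + 1) * d ≤ j' * d := Nat.mul_le_mul_right d hjj
      simp only [y] at hs3
      nlinarith
    intro j j' hne
    rcases Nat.lt_or_gt_of_ne hne with h | h
    · exact key j j' h
    · exact (key j' j h).symm
  have hind : iIndepSet E μ := by
    rw [iIndepSet_iff_meas_biInter hE]
    intro T
    have e : (⋂ j ∈ T, E j) = ⋂ m ∈ T.biUnion I, D m := by
      ext ω
      simp only [Set.mem_iInter, Finset.mem_biUnion, E]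
      constructor
      · rintro h m ⟨j, hj1, hj2⟩
        exact h j hj1 m hj2
      · intro h j hj m hm'
        exact h m ⟨j, hj, hm'⟩
    rw [e, inter hD hi, Finset.prod_biUnion (fun j _ j' _ hne => hdisj j j' hne)]
    refine Finset.prod_congr rfl fun j _ => ?_
    exact (inter hD hi (I j)).symm
  -- the sum of the probabilities
  have hcard : ∀ j, (I j).card = S'.card := fun j =>
    Finset.card_image_of_injective _ (add_left_injective (y j))
  have hlow : ∀ j, δ ((N + 1 + d) + j * d) ^ S'.card ≤ (μ (E j)).toReal := by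
    intro j
    rw [inter hD hi (I j), ENNReal.toReal_prod, ← hcard j, ← Finset.prod_const]
    refine Finset.prod_le_prod (fun _ _ => h0 _) fun m hm' => ?_
    obtain ⟨s, hs1, rfl⟩ := Finset.mem_image.1 hm'
    refine le_trans (hd ?_) (hp _)
    have := hS' s hs1
    simp only [y]
    omega
  have hsum : ∑' j, μ (E j) = ⊤ := by
    by_contra hne
    have h1 := ENNReal.summable_toReal hne
    have h2 : Summable fun j => δ ((N + 1 + d) + j * d) ^ S'.card :=
      Summable.of_nonneg_of_le (fun j => pow_nonneg (h0 _) _) hlow h1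
    have h3 : Antitone fun m => δ m ^ S'.card := fun a b hab =>
      pow_le_pow_left₀ (h0 b) (hd hab) _
    exact hs S'.card (summable_of_blocks h3 (fun m => pow_nonneg (h0 m) _) hd0 h2)
  have h1 := measure_limsup_eq_one hE hind hsum
  have hml : MeasurableSet (limsup E atTop) := MeasurableSet.measurableSet_limsup hE
  have h2 : ∀ᵐ ω ∂μ, ω ∈ limsup E atTop := (prob_compl_eq_zero_iff hml).2 h1
  filter_upwards [h2] with ω hω
  rw [mem_limsup_iff_frequently_mem] at hω
  obtain ⟨j, hj⟩ := hω.exists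
  have hj' : ∀ s ∈ S', ω ∈ D (s + y j) := fun s hs' =>
    Set.mem_iInter₂.1 hj (s + y j) (Finset.mem_image_of_mem _ hs')
  refine ⟨y j, ?_, ?_, fun s hs' => hj' s (Finset.mem_insert_of_mem hs')⟩
  · simp only [y]
    omega
  · have := hj' 0 (Finset.mem_insert_self _ _)
    rwa [zero_add] at this

/-- Dense random sets. -/
theorem easy [IsProbabilityMeasure μ] (hD : ∀ m, MeasurableSet (D m)) (hi : iIndepSet D μ)
    {δ : ℕ → ℝ} (hd : Antitone δ) (h0 : ∀ m, 0 ≤ δ m)
    (hs : ∀ r : ℕ, ¬ Summable fun m => δ m ^ r) (hp : ∀ m, δ m ≤ μ.real (D m)) :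
    ∀ᵐ ω ∂μ, ∀ (k : ℕ) (c : ℕ → Fin k) (i : Fin k), (∀ m, ω ∈ D m → c m = i) →
      ∃ X : Set ℕ, Solution c i X ∧ TuringReducible (Pool.Agent.Helper446.Defs.chi X)
        (Pool.Agent.Helper446.Defs.chi (graph c)) := by
  have h1 : ∀ᵐ ω ∂μ, ∀ q : Finset ℕ × ℕ,
      ∃ y, q.2 < y ∧ ω ∈ D y ∧ ∀ s ∈ q.1, ω ∈ D (s + y) :=
    ae_all_iff.2 fun q => rich hD hi hd h0 hs hp q.1 q.2
  filter_upwards [h1] with ω hω k c i hc
  refine greedy c i fun S N => ?_
  obtain ⟨y, y1, y2, y3⟩ := hω (S, N)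
  exact ⟨y, y1, hc y y2, fun s hs => hc _ (y3 s hs)⟩

theorem prod_le {q : ℕ → ℝ} (h0 : ∀ m, 0 ≤ q m) {r : ℕ} (hr : 0 < r) (T : Finset ℕ)
    (hT : T.card = r) : ∏ m ∈ T, q m ≤ ∑ m ∈ T, q m ^ r := by
  have hne : T.Nonempty := Finset.card_pos.1 (by omega)
  obtain ⟨m0, hm0, hmax⟩ := Finset.exists_max_image T q hne
  calc ∏ m ∈ T, q m ≤ ∏ _m ∈ T, q m0 :=
        Finset.prod_le_prod (fun _ _ => h0 _) fun m hm => hmax m hm
    _ = q m0 ^ r := by rw [Finset.prod_const, hT]
    _ ≤ ∑ m ∈ T, q m ^ r :=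
        Finset.single_le_sum (f := fun m => q m ^ r) (fun m _ => pow_nonneg (h0 m) r) hm0

/-- Sparse random sets are thin, almost surely. -/
theorem thin [IsProbabilityMeasure μ] (hD : ∀ m, MeasurableSet (D m)) (hi : iIndepSet D μ)
    (r : ℕ) (hs : Summable fun m => μ.real (D m) ^ r) :
    ∀ᵐ ω ∂μ, Thin r {m | ω ∈ D m} := by
  classical
  have hr : 0 < r := by
    rcases Nat.eq_zero_or_pos r with h | h
    · subst h
      simp only [pow_zero] at hs
      exact absurd hs (by simp [summable_const_iff])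
    · exact h
  have key : ∀ R : Finset ℕ, R.card = r →
      ∀ᵐ ω ∂μ, ∃ B, ∀ y, B ≤ y → ∃ u ∈ R, y + u ∉ {m | ω ∈ D m} := by
    intro R hR
    let q : ℕ → ℝ := fun m => μ.real (D m)
    let I : ℕ → Finset ℕ := fun y => R.image fun u => y + u
    have hcard : ∀ y, (I y).card = r := fun y => by
      rw [← hR]
      exact Finset.card_image_of_injective _ (add_right_injective y)
    have hle : ∀ y, μ (⋂ m ∈ I y, D m) ≤ ENNReal.ofReal (∑ u ∈ R, q (y + u) ^ r) := by
      intro y
      rw [← ENNReal.ofReal_toReal (measure_ne_top μ _)]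
      refine ENNReal.ofReal_le_ofReal ?_
      rw [inter hD hi (I y), ENNReal.toReal_prod]
      refine (prod_le (q := q) (fun m => measureReal_nonneg) hr (I y) (hcard y)).trans ?_
      rw [Finset.sum_image (fun a _ b _ h => add_right_injective y h)]
    have hsum : Summable fun y => ∑ u ∈ R, q (y + u) ^ r :=
      summable_sum fun u _ => (summable_nat_add_iff (f := fun m => q m ^ r) u).2 hs
    have hne : ∑' y, μ (⋂ m ∈ I y, D m) ≠ ⊤ :=
      ne_top_of_le_ne_top hsum.tsum_ofReal_ne_top (ENNReal.tsum_le_tsum hle)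
    filter_upwards [ae_eventually_notMem hne] with ω hω
    obtain ⟨B, hB⟩ := eventually_atTop.1 hω
    refine ⟨B, fun y hy => ?_⟩
    by_contra hcon
    push Not at hcon
    refine hB y hy (Set.mem_iInter₂.2 fun m hm => ?_)
    obtain ⟨u, hu, rfl⟩ := Finset.mem_image.1 hm
    exact hcon u hu
  have h1 : ∀ᵐ ω ∂μ, ∀ R : Finset ℕ, R.card = r →
      ∃ B, ∀ y, B ≤ y → ∃ u ∈ R, y + u ∉ {m | ω ∈ D m} := by
    rw [ae_all_iff]
    intro R
    by_cases hR : R.card = r
    · filter_upwards [key R hR] with ω hω _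
      exact hω
    · exact Eventually.of_forall fun ω h => absurd h hR
  exact h1

end Pool.Agent.Q202.NH
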